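import Pool.Agent.H.MP_ec274c_lc.Defs
import Pool.Agent.Lib.helper25.RelGr

namespace Pool.Agent.H.MP_ec274c_lc

open Pool.Agent.Lib.CX Finset

variable {V : Type} [Fintype V]

theorem nice (G : SimpleGraph V) (h : ∀ u v, G.Adj u v → ∃ w, w ≠ u ∧ w ≠ v ∧ (G.Adj u w ∨ G.Adj v w)) : Nice G :=
  fun c => ⟨fun e => by
    have a : G.Adj (e.symm 0).1 (e.symm 1).1 := e.symm.map_rel_iff.2 (by simp)
    obtain ⟨w, h1, h2, h3⟩ := h _ _ a
    have hw : w ∈ c.supp := h3.elim (fun k => (c.mem_supp_congr_adj k).1 (e.symm 0).2)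
      fun k => (c.mem_supp_congr_adj k).1 (e.symm 1).2
    have : ∀ i : Fin 2, i = 0 ∨ i = 1 := by decide
    rcases this (e ⟨w, hw⟩) with k | k
    · exact h1 (by rw [← k]; simp)
    · exact h2 (by rw [← k]; simp)⟩

open Classical in
theorem colour_eq (G : SimpleGraph V) (l : Sym2 V → ℕ) (v : V) :
    colour G l v = ∑ u with G.Adj v u, l s(v, u) := by
  refine (sum_bij (fun u _ => s(v, u)) (by simp) (fun a _ b _ e => Sym2.congr_right.1 e) (fun e he => ?_)
    fun _ _ => rfl).symm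
  simp only [mem_filter, SimpleGraph.mem_edgeFinset] at he
  obtain ⟨u, rfl⟩ := Sym2.mem_iff_exists.1 he.2
  exact ⟨u, by simpa using he.1, rfl⟩

abbrev W := ℕ × ℕ × ℕ × ℕ

def In (N m : ℕ) (L : ℕ) (p : W) : Prop :=
  (p.1 = 0 ∧ p.2.1 < 2 * (N + m) ∧ p.2.2.1 = 0 ∧ p.2.2.2 = 0) ∨
    (p.1 = 2 ∧ p.2.1 < 2 * N ∧ p.2.2.1 < 4 * m + 1 ∧ p.2.2.2 = 0) ∨
    (p.1 = 3 ∧ p.2.2.1 < 4 * m ∧ p.2.1 = L ∧ 2 ≤ p.2.2.2 ∧ p.2.2.2 < 4 * m + 1)
def R (N m : ℕ) (L : ℕ) (p q : W) : Prop :=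
  (p.1 = 0 ∧ q.1 = 0 ∧ p.2.1 / 2 = q.2.1 / 2 ∧ p.2.1 ≠ q.2.1) ∨
    (p.1 = 0 ∧ q.1 = 2 ∧ (p.2.1 = q.2.1 ∨ (q.2.2.1 < 4 * m ∧ q.2.1 = L ∧ p.2.1 = 2 * N + q.2.2.1 / 2))) ∨
    (p.1 = 2 ∧ q.1 = 3 ∧ p.2.1 = q.2.1 ∧ p.2.2.1 = q.2.2.1)
def dg (N m : ℕ) (L : ℕ) (p : W) : ℕ :=
  if p.1 = 0 then (if p.2.1 < 2 * N then 4 * m + 2 else 3) else
    if p.1 = 2 ∧ p.2.2.1 < 4 * m ∧ p.2.1 = L then 4 * m + 1 else 1
def idx (N m : ℕ) (p q : W) : ℕ :=
  if p.1 = 0 then (if q.1 = 0 then (if p.2.1 < 2 * N then 4 * m + 1 else 2) else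
    if p.2.1 < 2 * N then q.2.2.1 else q.2.2.1 % 2) else if q.1 = 0 then (if q.2.1 < 2 * N then 0 else 1) else q.2.2.2
def nbr (N m : ℕ) (L : ℕ → ℕ) (p : W) (i : ℕ) : W :=
  if p.1 = 0 then (if p.2.1 < 2 * N then (if i = 4 * m + 1 then (0, p.2.1 + 1 - 2 * (p.2.1 % 2), 0, 0) else (2, p.2.1, i, 0))
    else if i = 2 then (0, p.2.1 + 1 - 2 * (p.2.1 % 2), 0, 0) else
      (2, L (2 * (p.2.1 - 2 * N) + i), 2 * (p.2.1 - 2 * N) + i, 0))
  else if p.1 = 2 then (if i = 0 then (0, p.2.1, 0, 0) else if i = 1 then (0, 2 * N + p.2.2.1 / 2, 0, 0)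
    else (3, p.2.1, p.2.2.1, i)) else (2, p.2.1, p.2.2.1, 0)

section
variable {N m : ℕ} {L : ℕ → ℕ} (hL : ∀ t < 4 * m, L t < 2 * N)
include hL

theorem nbr1 {p i} (hp : In N m (L p.2.2.1) p) (hi : i < dg N m (L p.2.2.1) p) :
    In N m (L (nbr N m L p i).2.2.1) (nbr N m L p i) ∧ idx N m p (nbr N m L p i) = i ∧
      (R N m (L (nbr N m L p i).2.2.1) p (nbr N m L p i) ∨ R N m (L p.2.2.1) (nbr N m L p i) p) := by
  have := hL (2 * (p.2.1 - 2 * N) + i)
  have := hL p.2.2.1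
  simp only [dg, In] at hp hi
  unfold nbr
  split_ifs at hi ⊢ <;> simp [In, idx, R, *] <;> (try split_ifs) <;> omega

theorem nbr2 {p q} (hp : In N m (L p.2.2.1) p) (hq : In N m (L q.2.2.1) q)
    (h : R N m (L q.2.2.1) p q ∨ R N m (L p.2.2.1) q p) : idx N m p q < dg N m (L p.2.2.1) p := by
  have := hL q.2.2.1
  have := hL p.2.2.1
  have : p.2.2.1 = q.2.2.1 → L p.2.2.1 = L q.2.2.1 := congrArg L
  simp only [dg, In, R, idx] at *
  split_ifs <;> omega

theorem nbr3 {p q} (hp : In N m (L p.2.2.1) p) (hq : In N m (L q.2.2.1) q)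
    (h : R N m (L q.2.2.1) p q ∨ R N m (L p.2.2.1) q p) : nbr N m L p (idx N m p q) = q := by
  obtain ⟨a, b, c, d⟩ := p
  obtain ⟨a', b', c', d'⟩ := q
  have := hL c
  have := hL c'
  simp only [In, R] at hp hq h
  rcases h with (h | ⟨rfl, rfl, h | h⟩ | h) | h | ⟨rfl, rfl, h | h⟩ | h
  · by_cases b < 2 * N <;> simp [nbr, idx, h.1, h.2.1, *] <;> omega
  · simp [nbr, idx, show b < 2 * N by omega, show c' ≠ 4 * m + 1 by omega]; omega
  · simp [nbr, idx, show ¬b < 2 * N by omega, show c' % 2 ≠ 2 by omega, show 2 * (b - 2 * N) + c' % 2 = c' by omega]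
    omega
  · simp [nbr, idx, h.1, h.2.1, show d' ≠ 0 by omega, show d' ≠ 1 by omega]; omega
  · by_cases b < 2 * N <;> simp [nbr, idx, h.1, h.2.1, *] <;> omega
  · simp [nbr, idx, show b' < 2 * N by omega]; omega
  · simp [nbr, idx, show ¬b' < 2 * N by omega]; omega
  · simp [nbr, idx, h.1, h.2.1]; omega

end

def M (N m : ℕ) (L : ℕ → ℕ) (v : ℕ → Bool) (t : ℕ → ℕ) (p q : W) : Prop :=
  p.1 = 0 ∧ q.1 = 2 ∧ ((p.2.1 < 2 * N ∧ (v (p.2.1 / 2)).toNat = p.2.1 % 2 ∧ q.2.1 = p.2.1 ∧ q.2.2.1 = 4 * m) ∨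
    (q.2.2.1 = t (q.2.2.1 / 4) ∧ q.2.2.1 < 4 * m ∧ q.2.1 = L q.2.2.1 ∧ p.2.1 = 2 * N + q.2.2.1 / 2))
def hot (N m : ℕ) (L : ℕ → ℕ) (v : ℕ → Bool) (t : ℕ → ℕ) (p : W) : Prop :=
  (p.1 = 0 ∧ p.2.1 < 2 * N ∧ (v (p.2.1 / 2)).toNat = p.2.1 % 2) ∨
    (p.1 = 0 ∧ p.2.1 = 2 * N + t ((p.2.1 - 2 * N) / 2) / 2) ∨
    (p.1 = 2 ∧ p.2.2.1 = 4 * m ∧ (v (p.2.1 / 2)).toNat = p.2.1 % 2) ∨
    (p.1 = 2 ∧ p.2.2.1 < 4 * m ∧ p.2.1 = L p.2.2.1 ∧ p.2.2.1 = t (p.2.2.1 / 4))
instance (N m L v t p) : Decidable (hot N m L v t p) := by unfold hot; infer_instance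

section
variable {N m : ℕ} {L t : ℕ → ℕ} {v : ℕ → Bool} {p q r u : W}

theorem hot1 (hL : ∀ t < 4 * m, L t < 2 * N) (t1 : ∀ j < m, t j / 4 = j) (hp : In N m (L p.2.2.1) p)
    (h : hot N m L v t p) : ∃ q, In N m (L q.2.2.1) q ∧ (R N m (L q.2.2.1) p q ∨ R N m (L p.2.2.1) q p) ∧
      (M N m L v t p q ∨ M N m L v t q p) := by
  obtain ⟨a, b, c, d⟩ := p
  simp only [In, hot] at hp h
  rcases h with h | h | h | h
  · exact ⟨(2, b, 4 * m, 0), by simp [In, h], by simp [R, h], by simp [M, h]⟩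
  · have k := t1 ((b - 2 * N) / 2) (by omega)
    have := hL (t ((b - 2 * N) / 2)) (by omega)
    exact ⟨(2, L (t ((b - 2 * N) / 2)), t ((b - 2 * N) / 2), 0), by simp [In]; omega, by simp [R]; omega,
      by simp [M, k]; omega⟩
  · exact ⟨(0, b, 0, 0), by simp [In]; omega, by simp [R, h], by simp [M, h]; omega⟩
  · exact ⟨(0, 2 * N + c / 2, 0, 0), by simp [In]; omega, by simp [R, h.1, h.2.1, h.2.2.1],
      by simp [M, h.1, h.2.1, h.2.2.1, ← h.2.2.2]⟩

theorem hot2 (h : M N m L v t p q ∨ M N m L v t q p) : hot N m L v t p := by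
  rcases h with ⟨a, b, h | h⟩ | ⟨a, b, h | h⟩
  · exact .inl ⟨a, h.1, h.2.1⟩
  · exact .inr (.inl ⟨a, by rw [show (p.2.1 - 2 * N) / 2 = q.2.2.1 / 4 by omega, ← h.1, h.2.2.2]⟩)
  · exact .inr (.inr (.inl ⟨b, h.2.2.2, h.2.2.1 ▸ h.2.1⟩))
  · exact .inr (.inr (.inr ⟨b, h.2.1, h.2.2.1, h.1⟩))

theorem hot3 (hq : In N m (L q.2.2.1) q) (hr : In N m (L r.2.2.1) r) (h : M N m L v t p q ∨ M N m L v t q p)
    (h' : M N m L v t p r ∨ M N m L v t r p) : q = r := by
  have : q.2.2.1 = r.2.2.1 → L q.2.2.1 = L r.2.2.1 := congrArg L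
  have : q.2.2.1 / 4 = r.2.2.1 / 4 → t (q.2.2.1 / 4) = t (r.2.2.1 / 4) := congrArg t
  simp only [In, M, Prod.ext_iff] at *
  omega

theorem hot4 (hL : ∀ t < 4 * m, L t < 2 * N) (t1 : ∀ j < m, t j / 4 = j)
    (t2 : ∀ j < m, (v (L (t j) / 2)).toNat = L (t j) % 2) (hp : In N m (L p.2.2.1) p) (hq : In N m (L q.2.2.1) q)
    (h : R N m (L q.2.2.1) p q) : (dg N m (L p.2.2.1) p + if hot N m L v t p then 1 else 0) ≠
      dg N m (L q.2.2.1) q + if hot N m L v t q then 1 else 0 := by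
  obtain ⟨a, b, c, d⟩ := p
  obtain ⟨a', b', c', d'⟩ := q
  simp only [In, R] at hp hq h
  rcases h with ⟨rfl, rfl, h, h'⟩ | ⟨rfl, rfl, rfl | h⟩ | ⟨rfl, rfl, rfl, rfl⟩
  · have := (v (b' / 2)).toNat_le
    have := t1 ((b' - 2 * N) / 2)
    by_cases k : b < 2 * N
    · simp [dg, hot, h, k, show b' < 2 * N by omega]; split_ifs <;> first | omega | simp
    · simp [dg, hot, k, show ¬b' < 2 * N by omega, show (b - 2 * N) / 2 = (b' - 2 * N) / 2 by omega]
      split_ifs <;> first | omega | simp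
  · have : c' < 4 * m → b = L c' → c' = t (c' / 4) → (v (b / 2)).toNat = b % 2 := fun x y z => by
      rw [y, z]; exact t2 _ (by omega)
    simp [dg, hot, show b < 2 * N by omega]; split_ifs <;> omega
  · simp [dg, h.1, h.2.1, show ¬b < 2 * N by omega]; split_ifs <;> omega
  · simp [dg, show c < 4 * m by omega, show b = L c by omega]; split_ifs <;> omega

theorem hot5 (hp : In N m (L p.2.2.1) p) (hq : In N m (L q.2.2.1) q) (hr : In N m (L r.2.2.1) r)
    (hu : In N m (L u.2.2.1) u) (h : M N m L v t p q) (h' : M N m L v t r u) (e : p.2.1 / 2 = r.2.1 / 2) :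
    p = r ∧ q = u := by
  have : q.2.2.1 = u.2.2.1 → L q.2.2.1 = L u.2.2.1 := congrArg L
  have : q.2.2.1 / 4 = u.2.2.1 / 4 → t (q.2.2.1 / 4) = t (u.2.2.1 / 4) := congrArg t
  have k : v (p.2.1 / 2) = v (r.2.1 / 2) := by rw [e]
  simp only [In, M, Prod.ext_iff, k] at *
  omega

end

theorem sum_pairs (F : ℕ → ℕ) (M : ℕ) : ∑ i ∈ range (2 * M), F i = ∑ k ∈ range M, (F (2 * k) + F (2 * k + 1)) := by
  induction M with
  | zero => simp
  | succ M ih => rw [Nat.mul_succ, sum_range_succ, sum_range_succ, ih, sum_range_succ, add_assoc]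

open Classical in
theorem main {N m : ℕ} {L : ℕ → ℕ} (hL : ∀ t < 4 * m, L t < 2 * N) (G : SimpleGraph V) (g : V → W)
    (hg : Function.Injective g) (hT : ∀ p, In N m (L p.2.2.1) p ↔ ∃ u, g u = p)
    (hA : ∀ u v, G.Adj u v ↔ R N m (L (g v).2.2.1) (g u) (g v) ∨ R N m (L (g u).2.2.1) (g v) (g u)) (hN : 0 < N) :
    Nice G ∧ ((∃ v : ℕ → Bool, ∀ j < m, ∃ t, t / 4 = j ∧ (v (L t / 2)).toNat = L t % 2) ↔
      MinSumLe G ((G.edgeFinset.card + (N + m) : ℕ) : ℤ)) := by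
  have hT' : ∀ u, In N m (L (g u).2.2.1) (g u) := fun u => (hT _).2 ⟨u, rfl⟩
  have : Nonempty V := ⟨((hT (0, 0, 0, 0)).1 (by simp [In, hN])).choose⟩
  choose! s hs using fun p => (hT p).1
  have sg : ∀ u, s (g u) = u := fun u => hg (hs _ (hT' u))
  have deg : ∀ u, (univ.filter (G.Adj u)).card = dg N m (L (g u).2.2.1) (g u) := fun u => by
    rw [← card_range (dg _ _ _ _)]
    refine card_nbij' (fun w => idx N m (g u) (g w)) (fun i => s (nbr N m L (g u) i)) (fun w hw => ?_) (fun i hi => ?_)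
      (fun w hw => ?_) fun i hi => ?_
    · simpa using nbr2 hL (hT' u) (hT' w) ((hA u w).1 (by simpa using hw))
    · have := nbr1 hL (hT' u) (by simpa using hi : i < _)
      simpa [hA, hs _ this.1] using this.2.2
    · simp only [nbr3 hL (hT' u) (hT' w) ((hA u w).1 (by simpa using hw)), sg]
    · have := nbr1 hL (hT' u) (by simpa using hi : i < _)
      simp only [hs _ this.1, this.2.1]
  have col : ∀ l : Sym2 V → ℕ, (∀ e ∈ G.edgeSet, 1 ≤ l e) → ∀ u, colour G l u =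
      dg N m (L (g u).2.2.1) (g u) + ∑ w with G.Adj u w, (l s(u, w) - 1) := fun l hl u => by
    rw [colour_eq, ← deg, card_eq_sum_ones, ← sum_add_distrib]
    exact sum_congr rfl fun w hw => by have := hl s(u, w) (by simpa using hw); omega
  have tot : ∀ l : Sym2 V → ℕ, (∀ e ∈ G.edgeSet, 1 ≤ l e) →
      ∑ e ∈ G.edgeFinset, l e = G.edgeFinset.card + ∑ e ∈ G.edgeFinset, (l e - 1) := fun l hl => by
    rw [card_eq_sum_ones, ← sum_add_distrib]
    exact sum_congr rfl fun e he => by have := hl e (by simpa using he); omega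
  refine ⟨nice G fun u v e => ?_, ?_, ?_⟩
  · have : ∀ u v, 2 ≤ dg N m (L (g u).2.2.1) (g u) → ∃ w, w ≠ u ∧ w ≠ v ∧ G.Adj u w := fun u v h => by
      obtain ⟨w, h1, h2⟩ := exists_mem_ne (s := univ.filter (G.Adj u)) (by rw [deg]; exact h) v
      exact ⟨w, (mem_filter.1 h1).2.ne', h2, (mem_filter.1 h1).2⟩
    by_cases k : 2 ≤ dg N m (L (g u).2.2.1) (g u)
    · exact let ⟨w, a, b, c⟩ := this u v k; ⟨w, a, b, .inl c⟩
    · obtain ⟨w, a, b, c⟩ := this v u (by
        have := hT' u; have := hT' v; rw [hA] at e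
        have : (g u).2.2.1 = (g v).2.2.1 → L (g u).2.2.1 = L (g v).2.2.1 := congrArg L
        simp only [dg, R, In] at *
        split_ifs at * <;> omega)
      exact ⟨w, b, a, .inr c⟩
  · rintro ⟨v, hv⟩
    choose! t t1 t2 using hv
    have hM : ∀ u w, (∃ a b, s(u, w) = s(a, b) ∧ M N m L v t (g a) (g b)) ↔
        M N m L v t (g u) (g w) ∨ M N m L v t (g w) (g u) := fun u w =>
      ⟨fun ⟨a, b, e, h⟩ => by rcases Sym2.eq_iff.1 e with ⟨rfl, rfl⟩ | ⟨rfl, rfl⟩ <;> simp [h],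
        fun h => h.elim (fun h => ⟨u, w, rfl, h⟩) fun h => ⟨w, u, Sym2.eq_swap, h⟩⟩
    have l1 : ∀ e ∈ G.edgeSet, 1 ≤ (if ∃ a b, e = s(a, b) ∧ M N m L v t (g a) (g b) then 2 else 1) := fun e _ => by
      split <;> omega
    refine ⟨_, l1, fun u w e => ?_, ?_⟩
    · have : ∀ u, ∑ w with G.Adj u w, ((if ∃ a b, s(u, w) = s(a, b) ∧ M N m L v t (g a) (g b) then 2 else 1) - 1) =
          if hot N m L v t (g u) then 1 else 0 := fun u => by
        split
        · obtain ⟨q, q1, q2, q3⟩ := hot1 hL t1 (hT' u) ‹_›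
          rw [sum_eq_single_of_mem (s q) (by simpa [hA, hs q q1] using q2) fun w _ n => ?_, if_pos]
          · rwa [hM, hs q q1]
          · exact congrArg (· - 1) (if_neg fun k => n (hg ((hot3 (hT' w) q1 ((hM u w).1 k) q3).trans (hs q q1).symm)))
        · rename_i n
          exact sum_eq_zero fun w _ => congrArg (· - 1) (if_neg fun k => n (hot2 ((hM u w).1 k)))
      rw [col _ l1, col _ l1, this, this]
      exact ((hA u w).1 e).elim (hot4 hL t1 t2 (hT' u) (hT' w)) fun e => (hot4 hL t1 t2 (hT' w) (hT' u) e).symm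
    · rw [tot _ l1]
      have : ∑ e ∈ G.edgeFinset, ((if ∃ a b, e = s(a, b) ∧ M N m L v t (g a) (g b) then 2 else 1) - 1) ≤ N + m := by
        simp only [apply_ite (· - 1), Nat.add_one_sub_one, tsub_self, ← card_filter]
        refine (card_le_card (t := (univ.filter fun p : V × V => M N m L v t (g p.1) (g p.2)).image
          fun p => s(p.1, p.2)) fun e he => ?_).trans (card_image_le.trans ?_)
        · obtain ⟨a, b, rfl, h⟩ := (mem_filter.1 he).2
          exact mem_image.2 ⟨(a, b), by simpa using h, rfl⟩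
        · rw [← card_range (N + m)]
          refine card_le_card_of_injOn (fun p => (g p.1).2.1 / 2) (fun p hp => ?_) fun p hp q hq e => ?_
          · have := hT' p.1; have := (mem_filter.1 hp).2; simp only [In, M, coe_range, Set.mem_Iio] at *; omega
          · have := hot5 (hT' p.1) (hT' p.2) (hT' q.1) (hT' q.2) (mem_filter.1 hp).2 (mem_filter.1 hq).2 e
            exact Prod.ext (hg this.1) (hg this.2)
      omega
  · rintro ⟨l, h1, h2, h3⟩
    rw [tot l h1] at h3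
    replace h3 : ∑ e ∈ G.edgeFinset, (l e - 1) ≤ N + m := by omega
    simp only [col l h1] at h2
    generalize hx : (fun e => l e - 1) = x at h3
    simp only [show ∀ e, l e - 1 = x e from congrFun hx] at h2
    clear hx h1
    change ∑ e ∈ G.edgeFinset, x e ≤ N + m at h3
    let X : V → ℕ := fun u => ∑ w with G.Adj u w ∧ (g w).1 = 2, x s(u, w)
    let c : ℕ → V := fun i => s (0, i, 0, 0)
    have hc : ∀ i < 2 * (N + m), g (c i) = (0, i, 0, 0) := fun i hi => hs _ (by simp [In, hi])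
    let S := ((range (2 * (N + m))).sigma fun i => univ.filter fun w => G.Adj (c i) w ∧ (g w).1 = 2).image
      fun p => s(c p.1, p.2)
    have hS : ∑ e ∈ S, x e = ∑ k ∈ range (N + m), (X (c (2 * k)) + X (c (2 * k + 1))) := by
      rw [← sum_pairs fun i => X (c i), sum_image, sum_sigma]
      rintro ⟨i, w⟩ h ⟨j, z⟩ h' e
      simp only [coe_sigma, Set.mem_sigma_iff, coe_range, Set.mem_Iio, coe_filter, Set.mem_setOf_eq] at h h'
      rcases Sym2.eq_iff.1 e with ⟨a, rfl⟩ | ⟨a, b⟩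
      · have := congrArg g a
        simp only [hc _ h.1, hc _ h'.1, Prod.mk.injEq] at this
        rw [this.2.1]
      · simp only at a
        simp [← a, hc _ h.1] at h'
    have sS : S ⊆ G.edgeFinset := image_subset_iff.2 fun p hp => by simpa using (mem_filter.1 (mem_sigma.1 hp).2).2.1
    have cs : ∀ i j, i < 2 * (N + m) → i / 2 = j / 2 → i ≠ j →
        G.Adj (c i) (c j) ∧ ∑ w with G.Adj (c i) w, x s(c i, w) = x s(c i, c j) + X (c i) := fun i j h a b => by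
      have k : G.Adj (c i) (c j) := by rw [hA, hc i h, hc j (by omega)]; simp [R, a, b]
      refine ⟨k, ?_⟩
      refine (sum_congr (ext fun w => ?_) fun _ _ => rfl).trans (sum_insert (by simp [hc j (by omega)]))
      simp only [mem_filter, mem_univ, true_and, mem_insert]
      refine ⟨fun e => ?_, fun e => e.elim (fun e => e ▸ k) And.left⟩
      by_cases q : (g w).1 = 2
      · exact .inr ⟨e, q⟩
      · refine .inl (hg ?_)
        have := hT' w
        rw [hA, hc i h] at e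
        simp only [hc j (by omega), R, In, Prod.ext_iff] at *
        omega
    have y1 : ∀ k ∈ range (N + m), 1 ≤ X (c (2 * k)) + X (c (2 * k + 1)) := fun k hk => by
      have hk := mem_range.1 hk
      obtain ⟨a, b⟩ := cs (2 * k) (2 * k + 1) (by omega) (by omega) (by omega)
      have := h2 _ _ a
      rw [b, (cs (2 * k + 1) (2 * k) (by omega) (by omega) (by omega)).2, Sym2.eq_swap (a := c (2 * k)),
        hc _ (by omega), hc _ (by omega)] at this
      simp only [dg, if_true] at this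
      split_ifs at this <;> omega
    have y2 := sum_le_sum y1
    have y3 := sum_le_sum_of_subset (f := x) sS
    simp only [sum_const, card_range, smul_eq_mul, mul_one] at y2
    have y4 := (sum_eq_sum_iff_of_le y1).1 (by simp only [sum_const, card_range, smul_eq_mul, mul_one]; omega)
    have y5 : ∀ u w, G.Adj u w → ((g u).1 ≠ 0 ∨ (g w).1 ≠ 2) → ((g w).1 ≠ 0 ∨ (g u).1 ≠ 2) → x s(u, w) = 0 :=
      fun u w e a b => by
      have n : s(u, w) ∉ S := fun k => by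
        obtain ⟨⟨i, z⟩, k1, k2⟩ := mem_image.1 k
        simp only [mem_sigma, mem_range, mem_filter] at k1
        rcases Sym2.eq_iff.1 k2 with ⟨rfl, rfl⟩ | ⟨rfl, rfl⟩ <;> simp [hc _ k1.1, k1.2.2.2] at a b
      have := sum_le_sum_of_subset (f := x) (insert_subset (by simpa using e) sS : insert s(u, w) S ⊆ _)
      rw [sum_insert n] at this
      omega
    refine ⟨fun a => decide (X (c (2 * a + 1)) ≠ 0), fun j hj => ?_⟩
    obtain ⟨i, i1, i2⟩ : ∃ i, i / 2 = N + j ∧ X (c i) = 1 := by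
      have := y4 (N + j) (by simpa using hj)
      by_cases k : X (c (2 * (N + j))) = 1
      · exact ⟨_, by omega, k⟩
      · exact ⟨2 * (N + j) + 1, by omega, by omega⟩
    obtain ⟨w, w1, w2⟩ := exists_ne_zero_of_sum_ne_zero (i2 ▸ one_ne_zero : X (c i) ≠ 0)
    have w3 : x s(c i, w) ≤ X (c i) := single_le_sum (f := fun w => x s(c i, w)) (fun _ _ => Nat.zero_le _) w1
    obtain ⟨-, w4, w5⟩ := mem_filter.1 w1
    have w6 := hT' w
    have w7 := (hA _ _).1 w4
    rw [hc i (by omega)] at w7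
    simp only [R, In] at w6 w7
    have w8 := hL (g w).2.2.1 (by omega)
    have w9 : (g w).2.1 = L (g w).2.2.1 := by omega
    refine ⟨(g w).2.2.1, by omega, ?_⟩
    rw [← w9] at w8 ⊢
    have nz : X (c (g w).2.1) ≠ 0 := fun k => by
      have a : G.Adj (c (g w).2.1) w := by rw [hA, hc _ (by omega)]; simp [R, w5]
      obtain ⟨b1, b2⟩ := cs (g w).2.1 ((g w).2.1 + 1 - 2 * ((g w).2.1 % 2)) (by omega) (by omega) (by omega)
      have := h2 _ _ a
      rw [b2, k, y5 _ _ b1 (.inr (by simp [hc _ (show (g w).2.1 + 1 - 2 * ((g w).2.1 % 2) < _ by omega)]))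
        (.inr (by simp [hc _ (show (g w).2.1 < _ by omega)])), hc _ (by omega),
        sum_eq_single_of_mem (c i) (by simpa using w4.symm) fun z hz n => ?_, Sym2.eq_swap] at this
      · rw [show dg N m (L (g w).2.2.1) (g w) = 4 * m + 1 from
          (if_neg (by omega)).trans (if_pos ⟨w5, by omega, w9⟩)] at this
        simp only [dg, if_true, w8] at this
        omega
      · have hz := (mem_filter.1 hz).2
        by_cases q : (g z).1 = 0
        · have : z = c (g w).2.1 := hg (by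
            have n' : g z ≠ (0, i, 0, 0) := fun e => n (hg (e.trans (hc i (by omega)).symm))
            have := hT' z
            rw [hA] at hz
            simp only [hc _ (show (g w).2.1 < _ by omega), R, In, ne_eq, Prod.ext_iff] at *
            omega)
          rw [this, Sym2.eq_swap]
          exact sum_eq_zero_iff.1 k w (by simp [a, w5])
        · exact y5 _ _ hz (.inl (by omega)) (.inl q)
    have := y4 ((g w).2.1 / 2) (by simp; omega)
    rcases Nat.mod_two_eq_zero_or_one (g w).2.1 with k | k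
    · have e : X (c (2 * ((g w).2.1 / 2) + 1)) = 0 := by
        rw [show 2 * ((g w).2.1 / 2) = (g w).2.1 by omega] at this ⊢; omega
      simp [k, e]
    · beta_reduce
      rw [show 2 * ((g w).2.1 / 2) + 1 = (g w).2.1 by omega]
      simp [k, nz]

end Pool.Agent.H.MP_ec274c_lc
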