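import Pool.Agent.H.MP_ec274c_lc.A

namespace Pool.Agent.H.MP_ec274c_lc

open Pool.Agent.Lib.CX Finset

def prs (a : Gr) : List (ℕ × ℕ) := (List.range a.n ×ˢ List.range a.n).filter fun e => e.1 < e.2 ∧ a.adjB e.1 e.2 = true

theorem list_sum (n : ℕ) (F : ℕ → ℕ) : ((List.range n).map F).sum = ∑ i : Fin n, F i := by
  rw [Fin.sum_univ_eq_sum_range]; rfl

open Classical in
theorem sum_edges (a : Gr) (l : Sym2 (Fin a.n) → ℕ) (F : ℕ × ℕ → ℕ) (h : ∀ u v : Fin a.n, u < v → l s(u, v) = F (u, v)) :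
    ∑ e ∈ a.G.edgeFinset, l e = ((prs a).map F).sum := by
  have nd : (prs a).Nodup := (List.nodup_range.product List.nodup_range).filter _
  rw [← List.sum_toFinset _ nd]
  have m : ∀ p ∈ (prs a).toFinset, (p.1 < a.n ∧ p.2 < a.n) ∧ p.1 < p.2 ∧ a.adjB p.1 p.2 = true := by
    rintro ⟨u, v⟩; simp [prs]
  refine (sum_bij (fun p hp => s(⟨p.1, (m p hp).1.1⟩, ⟨p.2, (m p hp).1.2⟩)) (fun p hp => ?_) (fun p hp q hq e => ?_)
    (fun e he => ?_) fun p hp => (h ⟨_, _⟩ ⟨_, _⟩ (m p hp).2.1).symm).symm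
  · simpa using (a.adjB_iff ⟨_, _⟩ ⟨_, _⟩).1 (m p hp).2.2
  · have := (m p hp).2.1; have := (m q hq).2.1
    simp only [Sym2.eq_iff, Fin.mk.injEq, Prod.ext_iff] at *; omega
  · induction e using Sym2.ind with
    | _ u v =>
      have he : a.G.Adj u v := by simpa using he
      rcases lt_or_gt_of_ne he.ne with k | k
      · exact ⟨(u, v), by simpa [prs, a.adjB_iff, he] using k, rfl⟩
      · exact ⟨(v, u), by simpa [prs, a.adjB_iff, he.symm] using k, Sym2.eq_swap⟩

open Classical in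
theorem card_edges (a : Gr) : a.G.edgeFinset.card = (prs a).length := by
  rw [card_eq_sum_ones, sum_edges a _ (fun _ => 1) fun _ _ _ => rfl]; simp

def LL (φ : List (Cl3 ℕ)) (t : ℕ) : ℕ :=
  2 * (litOf (φ.getD (t / 4) (unit 0 true), t % 4)).1 + (litOf (φ.getD (t / 4) (unit 0 true), t % 4)).2.toNat
instance (N m L p) : Decidable (In N m L p) := by unfold In; infer_instance
instance (N m L p q) : Decidable (R N m L p q) := by unfold R; infer_instance
def vs (φ : List (Cl3 ℕ)) : List W :=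
  (List.range 4 ×ˢ List.range (8 * φ.length + 2) ×ˢ List.range (4 * φ.length + 1) ×ˢ
    List.range (4 * φ.length + 1)).filter fun p => In (3 * φ.length + 1) φ.length (LL φ p.2.2.1) p
def gr (φ : List (Cl3 ℕ)) : Gr := relGr (vs φ) fun e => R (3 * φ.length + 1) φ.length (LL φ e.2.2.2.1) e.1 e.2

theorem key (φ : List (Cl3 ℕ)) (hφ : ∀ C ∈ φ, ∀ x ∈ C.vars, x < 3 * φ.length) : Nice (gr φ).G ∧
    (Sat3 φ ↔ MinSumLe (gr φ).G (((prs (gr φ)).length + (3 * φ.length + 1 + φ.length) : ℕ) : ℤ)) := by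
  have hL : ∀ t < 4 * φ.length, LL φ t < 2 * (3 * φ.length + 1) := fun t ht => by
    have h : t / 4 < φ.length := by omega
    have := hφ _ (List.getElem_mem h) (litOf (φ[t / 4], t % 4)).1 (by
      rcases (by omega : t % 4 = 0 ∨ t % 4 = 1 ∨ t % 4 = 2 ∨ t % 4 = 3) with k | k | k | k <;>
        simp [k, litOf, Cl3.vars])
    have := (litOf (φ[t / 4], t % 4)).2.toNat_le
    simp only [LL, List.getD_eq_getElem _ _ h]
    omega
  have := main hL (gr φ).G (relNm _ _) (relNm_inj _ _) (fun p => Iff.trans (by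
    obtain ⟨x, y, z, w⟩ := p
    have := hL z
    simp only [vs, List.mem_filter, decide_eq_true_eq, iff_and_self, In]
    exact fun h => List.pair_mem_product.2 ⟨List.mem_range.2 (by omega), List.pair_mem_product.2
      ⟨List.mem_range.2 (by omega), List.pair_mem_product.2 ⟨List.mem_range.2 (by omega), List.mem_range.2 (by omega)⟩⟩⟩)
    (relNm_range _ _ p)) (fun u v => (relGr_adj _ _ u v).trans (by
      simp only [decide_eq_true_eq, and_iff_right_iff_imp, R, ne_eq, Prod.ext_iff]; omega)) (by omega)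
  rw [← card_edges]
  refine ⟨this.1, Iff.trans (exists_congr fun v => ⟨fun h j hj => ?_, fun h C hC => ?_⟩) this.2⟩
  · obtain ⟨k, k3, e⟩ := (ok_iff _ _).1 (h _ (List.getElem_mem hj))
    refine ⟨4 * j + k, by omega, ?_⟩
    have := (litOf (φ[j], k)).2.toNat_le
    simp only [LL, show (4 * j + k) / 4 = j by omega, show (4 * j + k) % 4 = k by omega, List.getD_eq_getElem _ _ hj]
    rw [show (2 * (litOf (φ[j], k)).1 + (litOf (φ[j], k)).2.toNat) / 2 = (litOf (φ[j], k)).1 by omega, e]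
    omega
  · obtain ⟨j, hj, rfl⟩ := List.getElem_of_mem hC
    obtain ⟨t, rfl, e⟩ := h j hj
    have := (litOf (φ[t / 4], t % 4)).2.toNat_le
    simp only [LL, List.getD_eq_getElem _ _ hj] at e
    rw [show (2 * (litOf (φ[t / 4], t % 4)).1 + (litOf (φ[t / 4], t % 4)).2.toNat) / 2 = (litOf (φ[t / 4], t % 4)).1 by
      omega] at e
    have e : v (litOf (φ[t / 4], t % 4)).1 = (litOf (φ[t / 4], t % 4)).2 := by
      revert e; cases v _ <;> cases (litOf _).2 <;> simp
    rcases (by omega : t % 4 = 0 ∨ t % 4 = 1 ∨ t % 4 = 2 ∨ t % 4 = 3) with k | k | k | k <;>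
      simp [k, litOf] at e <;> simp [Cl3.ok, e]

set_option synthInstance.maxSize 2000 in
theorem pt1 : PT gr := PT.relGr (by unfold vs In LL litOf; fun_prop) (by unfold R LL litOf; fun_prop)

theorem pt2 : PT prs := by unfold prs; fun_prop

attribute [local irreducible] gr

theorem hard : NPHard fun a : {a : Gr × ℤ // Nice a.1.G} => MinSumLe a.1.1.G a.1.2 := by
  have := pt2.comp pt1
  have : PT fun φ => (gr φ, (((prs (gr φ)).length + (3 * φ.length + 1 + φ.length) : ℕ) : ℤ)) := pt1.pair (by fun_prop)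
  refine NPHard.of_sat3 (fun φ => ⟨_, (key _ (renum_lt φ)).1⟩) (PT.subtype (this.comp PT.renum) fun φ => (key _ (renum_lt φ)).1)
    fun φ _ => ?_
  rw [← sat3_renum]
  exact (key _ (renum_lt φ)).2

def lab (c : List (List ℕ)) (u v : ℕ) : ℕ := (c.getD (min u v) []).getD (max u v) 0
def cl (a : Gr) (c : List (List ℕ)) (u : ℕ) : ℕ := ((List.range a.n).map fun v => if a.adjB u v then lab c u v else 0).sum
def chk (a : Gr × ℤ) (c : List (List ℕ)) : Prop :=
  (∀ e ∈ prs a.1, 1 ≤ lab c e.1 e.2 ∧ cl a.1 c e.1 ≠ cl a.1 c e.2) ∧ ((((prs a.1).map fun e => lab c e.1 e.2).sum : ℕ) : ℤ) ≤ a.2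
instance (a c) : Decidable (chk a c) := by unfold chk; infer_instance

open Classical in
theorem chk_iff (a : Gr × ℤ) (c) (l : Sym2 (Fin a.1.n) → ℕ) (h : ∀ u v : Fin a.1.n, l s(u, v) = lab c u v) : chk a c ↔
    (∀ e ∈ a.1.G.edgeSet, 1 ≤ l e) ∧ (∀ u v, a.1.G.Adj u v → colour a.1.G l u ≠ colour a.1.G l v) ∧
      ((∑ e ∈ a.1.G.edgeFinset, l e : ℕ) : ℤ) ≤ a.2 := by
  have c1 : ∀ u, colour a.1.G l u = cl a.1 c u := fun u => by
    simp only [colour_eq, cl, list_sum, sum_filter, a.1.adjB_iff, h]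
  rw [chk, sum_edges a.1 l (fun e => lab c e.1 e.2) fun u v _ => h u v, ← and_assoc]
  refine and_congr_left fun _ => ⟨fun k => ?_, fun k e he => ?_⟩
  · have : ∀ u v, a.1.G.Adj u v → 1 ≤ l s(u, v) ∧ colour a.1.G l u ≠ colour a.1.G l v := fun u v e => by
      rcases lt_or_gt_of_ne e.ne with q | q
      · rw [h, c1, c1]; exact k (u, v) (by simpa [prs, a.1.adjB_iff, e] using q)
      · rw [Sym2.eq_swap, h, c1, c1]; exact (k (v, u) (by simpa [prs, a.1.adjB_iff, e.symm] using q)).imp id Ne.symm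
    exact ⟨fun e => Sym2.ind (fun u v e => (this u v e).1) e, fun u v e => (this u v e).2⟩
  · obtain ⟨u, v⟩ := e
    simp only [prs, List.mem_filter, decide_eq_true_eq] at he
    obtain ⟨h1, h2⟩ := List.pair_mem_product.1 he.1
    have := (a.1.adjB_iff ⟨u, List.mem_range.1 h1⟩ ⟨v, List.mem_range.1 h2⟩).1 he.2.2
    exact ⟨(k.1 s(_, _) this).trans_eq (h _ _), by simpa [c1] using k.2 _ _ this⟩

set_option synthInstance.maxSize 2000 in
theorem inNP : InNP fun a : Gr × ℤ => MinSumLe a.1.G a.2 := by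
  classical
  refine InNP.of_cert' chk (fun a => a.1.n * (a.1.n * (size a.2 + 1) + 2 + 1) + 2)
    (by unfold chk cl lab prs; fun_prop) (by fun_prop) (fun a c h => ?_) ?_
  · exact ⟨Sym2.lift ⟨fun u v => lab c u v, fun u v => by simp [lab, min_comm, max_comm]⟩,
      (chk_iff a c _ fun _ _ => rfl).1 h⟩
  · rintro a ⟨l, h1, h2, h3⟩
    let l' := fun e => if e ∈ a.1.G.edgeFinset then l e else 0
    have e1 : ∀ u, colour a.1.G l' u = colour a.1.G l u := fun u => by
      rw [colour_eq, colour_eq]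
      exact sum_congr rfl fun e he => if_pos (by simpa using he)
    have e2 : ∑ e ∈ a.1.G.edgeFinset, l' e = ∑ e ∈ a.1.G.edgeFinset, l e := sum_congr rfl fun e he => if_pos he
    refine ⟨List.ofFn fun u => List.ofFn fun v => l' s(u, v), ?_, (chk_iff a _ l' fun u v => ?_).2
      ⟨fun e he => by simpa [l', he] using h1 e he, by simpa only [e1] using h2, by rwa [e2]⟩⟩
    · refine (size_list_le (B := a.1.n * (size a.2 + 1) + 2) fun x hx => ?_).trans (by simp)
      obtain ⟨u, rfl⟩ := (List.mem_ofFn' _ _).1 hx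
      refine (size_list_le (B := size a.2) fun y hy => ?_).trans (by simp)
      obtain ⟨v, rfl⟩ := (List.mem_ofFn' _ _).1 hy
      have : l' s(u, v) ≤ a.2.natAbs := by
        simp only [l']
        split
        · have := single_le_sum (f := l) (fun _ _ => Nat.zero_le _) ‹_›
          omega
        · omega
      have := size_nat_mono this
      rw [size_int]; exact this.trans (by omega)
    · rcases le_total u v with k | k
      · simp [lab, min_eq_left (show u.1 ≤ v.1 from k), max_eq_right (show u.1 ≤ v.1 from k)]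
      · simp [lab, min_eq_right (show v.1 ≤ u.1 from k), max_eq_left (show v.1 ≤ u.1 from k), Sym2.eq_swap]

end Pool.Agent.H.MP_ec274c_lc
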