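import Pool.Agent.H.MP_ec274c_lc.B

namespace Pool.Agent.H.MP_ec274c_lc

open Pool.Agent.Lib.CX Finset

theorem small {V : Type} [Fintype V] (G : SimpleGraph V) (q : ℤ) (h : MinSumLe G q) :
    MinSumLe G (min q ((2 * Fintype.card V + 1) * Fintype.card V ^ 2 : ℕ)) := by
  classical
  obtain ⟨l, h1, h2, h3⟩ := h
  induction hk : ∑ e ∈ G.edgeFinset, l e using Nat.strong_induction_on generalizing l with
  | _ k ih =>
  by_cases b : ∀ e ∈ G.edgeFinset, l e ≤ 2 * Fintype.card V + 1
  · refine ⟨l, h1, h2, le_min h3 ?_⟩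
    have := (sum_le_card_nsmul _ _ _ b).trans (Nat.mul_le_mul_right _
      (G.card_edgeFinset_le_card_choose_two.trans (Nat.choose_le_pow _ _)))
    rw [mul_comm] at this
    exact_mod_cast this
  · push Not at b
    obtain ⟨e, he, b⟩ := b
    induction e using Sym2.ind with
    | _ u v =>
    obtain ⟨t, t1, t2⟩ := exists_mem_notMem_of_card_lt_card (t := Icc 1 (2 * Fintype.card V + 1))
      (s := univ.image (fun w => colour G l w + l s(u, v) - colour G l u) ∪
        univ.image (fun w => colour G l w + l s(u, v) - colour G l v))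
      ((card_union_le _ _).trans_lt ((Nat.add_le_add card_image_le card_image_le).trans_lt (by simp; omega)))
    simp only [mem_union, mem_image, mem_univ, true_and, not_or, not_exists, mem_Icc] at t1 t2
    have s1 : ∀ S : Finset (Sym2 V), s(u, v) ∈ S →
        ∑ e ∈ S, Function.update l s(u, v) t e + l s(u, v) = ∑ e ∈ S, l e + t := fun S hS => by
      rw [sum_update_of_mem hS, ← add_sum_erase S l hS, sdiff_singleton_eq_erase]; omega
    have c1 : ∀ w, w = u ∨ w = v → colour G (Function.update l s(u, v) t) w + l s(u, v) = colour G l w + t :=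
      fun w hw => s1 _ (by simpa [hw] using he)
    have c2 : ∀ w, ¬(w = u ∨ w = v) → colour G (Function.update l s(u, v) t) w = colour G l w := fun w hw =>
      sum_update_of_notMem (by simp [hw]) _ _
    have c3 := s1 _ he
    refine ih _ (by omega) (Function.update l s(u, v) t) (fun e he => ?_) (fun x y a => ?_) (by omega) rfl
    · rw [Function.update_apply]; split
      · exact t1.1
      · exact h1 e he
    · have := h2 x y a
      by_cases p : x = u ∨ x = v <;> by_cases q : y = u ∨ y = v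
      · have := c1 x p; have := c1 y q; omega
      · have := c1 x p; have := c2 y q; have := t2.1 y; have := t2.2 y; rcases p with rfl | rfl <;> omega
      · have := c2 x p; have := c1 y q; have := t2.1 x; have := t2.2 x; rcases q with rfl | rfl <;> omega
      · have := c2 x p; have := c2 y q; omega

theorem leaf {V : Type} [Finite V] (H : SimpleGraph V) (h : H.IsAcyclic) {a b : V} (e : H.Adj a b) :
    ∃ u v, H.Adj u v ∧ ∀ w, H.Adj u w → w = v := by
  have : Nonempty V := ⟨a⟩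
  obtain ⟨u, v, p, hp, hmax⟩ := SimpleGraph.Walk.exists_isPath_forall_isPath_length_le_length H
  have hnil : ¬p.Nil := by
    have := hmax _ _ e.toWalk e.isPath_toWalk
    rw [SimpleGraph.Walk.not_nil_iff_lt_length]
    exact this
  refine ⟨u, _, p.adj_snd hnil, fun w hadj => h.eq_snd_of_adj_start hp hadj (by_contra fun n => ?_)⟩
  simpa using hmax _ _ (p.cons hadj.symm) (hp.cons n)

abbrev Q4 := ℕ × ℕ × ℕ × ℕ

def Feas (n Q : ℕ) (F : Finset (ℕ × ℕ)) (T : List Q4) : Prop :=
  ∃ (l : ℕ × ℕ → ℕ) (c a s : ℕ → ℕ), (∀ e ∈ F, 1 ≤ l e ∧ c e.1 ≠ c e.2) ∧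
    (∀ v < n, (v, c v, a v, s v) ∈ T ∧ c v = a v + ∑ e ∈ F with e.1 = v ∨ e.2 = v, l e) ∧
    ∑ e ∈ F, l e + ∑ v ∈ range n, s v ≤ Q

def cube (n B : ℕ) : List Q4 := List.range n ×ˢ List.range (B + 1) ×ˢ List.range (B + 1) ×ˢ List.range (B + 1)

theorem mem_cube {n B v c a s} : (v, c, a, s) ∈ cube n B ↔ v < n ∧ c ≤ B ∧ a ≤ B ∧ s ≤ B := by
  simp [cube, Nat.lt_succ_iff]

def upd (T : List Q4) (u v : ℕ) (t : Q4) : Prop :=
  (t.1 = u ∧ t.2 = (0, 0, 0)) ∨ (t.1 = v ∧ ∃ x ∈ T, ∃ y ∈ T, x.1 = v ∧ y.1 = u ∧ x.2.1 = t.2.1 ∧ y.2.1 ≠ t.2.1 ∧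
    y.2.2.1 < y.2.1 ∧ t.2.2.1 = x.2.2.1 + (y.2.1 - y.2.2.1) ∧ t.2.2.2 = x.2.2.2 + y.2.2.2 + (y.2.1 - y.2.2.1)) ∨
    (t.1 ≠ u ∧ t.1 ≠ v ∧ t ∈ T)
instance (T u v t) : Decidable (upd T u v t) := by unfold upd; infer_instance

theorem feas_step {n Q B u v : ℕ} {F : Finset (ℕ × ℕ)} {T : List Q4} {e0 : ℕ × ℕ} (hB : Q ≤ B) (hT : T ⊆ cube n B)
    (h0 : e0 ∈ F) (hu : u < n) (hv : v < n) (ne : u ≠ v) (he : e0 = (u, v) ∨ e0 = (v, u))
    (h : ∀ e ∈ F, e.1 = u ∨ e.2 = u → e = e0) :
    Feas n Q F T ↔ Feas n Q (F.erase e0) ((cube n B).filter (upd T u v)) := by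
  have s1 : ∀ f : ℕ → ℕ, ∑ w ∈ range n, f w = f u + f v + ∑ w ∈ ((range n).erase u).erase v, f w := fun f => by
    rw [← add_sum_erase _ f (mem_range.2 hu), ← add_sum_erase _ f (mem_erase.2 ⟨ne.symm, mem_range.2 hv⟩), add_assoc]
  have s2 : ∀ (x y : ℕ) (f : ℕ → ℕ), ∑ w ∈ range n, (if w = u then x else if w = v then y else f w) =
      x + y + ∑ w ∈ ((range n).erase u).erase v, f w := fun x y f => by
    rw [s1, if_pos rfl, if_neg ne.symm, if_pos rfl]
    exact congrArg _ (sum_congr rfl fun w hw => by simp only [mem_erase] at hw; simp [hw.1, hw.2.1])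
  have s3 : ∀ (l : ℕ × ℕ → ℕ) w, ∑ e ∈ F with e.1 = w ∨ e.2 = w, l e =
      (if w = u ∨ w = v then l e0 else 0) + ∑ e ∈ F.erase e0 with e.1 = w ∨ e.2 = w, l e := fun l w => by
    rw [sum_filter, sum_filter, ← add_sum_erase _ _ h0]
    rcases he with rfl | rfl <;> simp [eq_comm, or_comm]
  have s4 : ∀ l : ℕ × ℕ → ℕ, ∑ e ∈ F.erase e0 with e.1 = u ∨ e.2 = u, l e = 0 := fun l =>
    sum_eq_zero fun e k => by
      simp only [mem_filter, mem_erase] at k
      exact absurd (h e k.1.2 k.2) k.1.1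
  have s5 : ∀ e ∈ F.erase e0, e.1 ≠ u ∧ e.2 ≠ u := fun e k =>
    ⟨fun q => (mem_erase.1 k).1 (h e (mem_erase.1 k).2 (.inl q)), fun q => (mem_erase.1 k).1 (h e (mem_erase.1 k).2 (.inr q))⟩
  constructor
  · rintro ⟨l, c, a, s, h1, h2, h3⟩
    rw [← add_sum_erase _ l h0, s1] at h3
    simp only [s3 l] at h2
    refine ⟨l, fun w => if w = u then 0 else c w, fun w => if w = u then 0 else if w = v then a v + l e0 else a w,
      fun w => if w = u then 0 else if w = v then s v + s u + l e0 else s w, fun e k => ?_, fun w hw => ?_, ?_⟩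
    · simpa [s5 e k] using h1 e (mem_of_mem_erase k)
    · have k1 := h2 w hw
      have k2 := mem_cube.1 (hT k1.1)
      simp only [List.mem_filter, decide_eq_true_eq, mem_cube, upd]
      by_cases p : w = u
      · simp [p, s4, hu]
      · by_cases q : w = v
        · subst q
          have k3 := h2 u hu
          have k4 := h1 e0 h0
          simp only [s4, true_or, or_true, if_true, p, if_false] at k1 k3 ⊢
          refine ⟨⟨⟨hw, k2.2.1, by omega, by omega⟩, .inr (.inl ⟨trivial, _, k1.1, _, k3.1, ?_⟩)⟩, by omega⟩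
          rcases he with rfl | rfl <;> simp only [true_and] at k4 ⊢ <;> omega
        · simp only [p, q, if_false, or_self, zero_add] at k1 ⊢
          exact ⟨⟨k2, .inr (.inr ⟨p, q, k1.1⟩)⟩, k1.2⟩
    · rw [s2]; omega
  · rintro ⟨l, c, a, s, h1, h2, h3⟩
    simp only [List.mem_filter, decide_eq_true_eq, upd] at h2
    obtain ⟨-, ⟨x1, x2, xa, xs⟩, hx, ⟨y1, yc, ya, ys⟩, hy, e1, e2, e3, k1, k2, k3, k4⟩ :=
      ((h2 v hv).1.2.resolve_left (by simp [ne.symm])).resolve_right (by simp)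
    simp only at e1 e2 e3 k1 k2 k3 k4
    rw [e1, e3] at hx
    rw [e2] at hy
    have s6 : ∀ S : Finset (ℕ × ℕ), S ⊆ F.erase e0 → ∑ e ∈ S, Function.update l e0 (yc - ya) e = ∑ e ∈ S, l e :=
      fun S k => sum_update_of_notMem (fun q => by simpa using k q) _ _
    refine ⟨Function.update l e0 (yc - ya), fun w => if w = u then yc else c w,
      fun w => if w = u then ya else if w = v then xa else a w,
      fun w => if w = u then ys else if w = v then xs else s w, fun e k => ?_, fun w hw => ?_, ?_⟩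
    · by_cases q : e = e0
      · rcases he with rfl | rfl <;> subst q <;> simp [ne.symm] at k1 k2 ⊢ <;> omega
      · simpa [s5 e (mem_erase.2 ⟨q, k⟩), q] using h1 e (mem_erase.2 ⟨q, k⟩)
    · rw [s3, s6 _ (filter_subset _ _), Function.update_self]
      have k5 := h2 w hw
      by_cases p : w = u
      · simp only [p, s4, if_true, true_or] at k2 ⊢
        clear k5 h2
        exact ⟨hy, by omega⟩
      · by_cases q : w = v
        · replace k5 := k5.2
          simp only [q, ne.symm, if_true, if_false, or_true] at k3 k5 ⊢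
          clear h2
          exact ⟨hx, by omega⟩
        · simpa [p, q] using k5.imp And.right id
    · rw [← add_sum_erase _ _ h0, s6 _ Subset.rfl, s2, Function.update_self]
      rw [s1] at h3
      omega

def cand (E : List (ℕ × ℕ)) : List (ℕ × ℕ) :=
  (E ++ E.map fun e => (e.2, e.1)).filter fun p => ∀ e ∈ E, e.1 = p.1 ∨ e.2 = p.1 → e = p ∨ e = (p.2, p.1)
def step (U : List Q4) (s : List (ℕ × ℕ) × List Q4) : List (ℕ × ℕ) × List Q4 :=
  if cand s.1 = [] then s else
    (s.1.filter fun e => e.1 ≠ ((cand s.1).headD (0, 0)).1 ∧ e.2 ≠ ((cand s.1).headD (0, 0)).1,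
      U.filter (upd s.2 ((cand s.1).headD (0, 0)).1 ((cand s.1).headD (0, 0)).2))
def bd (a : Gr) : ℕ := (2 * a.n + 1) * a.n ^ 2
def init (a : Gr) : List (ℕ × ℕ) × List Q4 :=
  (prs a, (cube a.n (bd a)).filter fun t => t.2.2.1 = 0 ∧ t.2.2.2 = 0)
def fin (a : Gr) : List Q4 := ((step (cube a.n (bd a)))^[(prs a).length] (init a)).2
def mn (B : ℕ) (T : List Q4) (v : ℕ) : ℕ :=
  ((List.range (B + 1)).filter fun s => ∃ t ∈ T, t.1 = v ∧ t.2.1 = t.2.2.1 ∧ t.2.2.2 = s).headD (B + 1)
def alg (a : Gr × ℤ) : Prop :=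
  ((((List.range a.1.n).map (mn (bd a.1) (fin a.1))).sum : ℕ) : ℤ) ≤ a.2 ∧
    ((List.range a.1.n).map (mn (bd a.1) (fin a.1))).sum ≤ bd a.1
instance (a) : Decidable (alg a) := by unfold alg; infer_instance

theorem step_sub (a : Gr) (k : ℕ) : ((step (cube a.n (bd a)))^[k] (init a)).1.Sublist (prs a) ∧
    ((step (cube a.n (bd a)))^[k] (init a)).2.Sublist (cube a.n (bd a)) := by
  induction k with
  | zero => exact ⟨.refl _, List.filter_sublist⟩
  | succ k ih =>
    rw [Function.iterate_succ_apply', step]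
    split
    · exact ih
    · exact ⟨List.filter_sublist.trans ih.1, List.filter_sublist⟩

set_option synthInstance.maxSize 2000 in
theorem pt_fin : PT fin := by
  have h1 : PB bd := by unfold bd; fun_prop
  have h2 : PT bd := by unfold bd; fun_prop
  have h3 : PT fun a : Gr => cube a.n (bd a) := by unfold cube; fun_prop
  have := pt2
  refine (PT.iterate (F := fun a => step (cube a.n (bd a))) (B := fun a => size (prs a) + size (cube a.n (bd a)) + 1)
    (PT.comp (f := fun p : List Q4 × List (ℕ × ℕ) × List Q4 => step p.1 p.2) (g := fun p : Gr × _ => (_, p.2))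
      (by unfold step cand upd; fun_prop) (by fun_prop))
    (by unfold init; fun_prop) (by fun_prop) (by fun_prop) (by fun_prop) fun a k _ => ?_).snd
  have := size_sublist (step_sub a k).1
  have := size_sublist (step_sub a k).2
  rw [← Prod.mk.eta (p := _^[k] _), size_pair]
  omega

set_option synthInstance.maxSize 2000 in
theorem pt_alg : PT fun a => decide (alg a) := by
  have h1 : PB bd := by unfold bd; fun_prop
  have h2 : PT bd := by unfold bd; fun_prop
  have := pt_fin
  have : PT fun p : Gr × ℕ => mn (bd p.1) (fin p.1) p.2 := by unfold mn; fun_prop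
  have : PT fun a : Gr => ((List.range a.n).map (mn (bd a) (fin a))).sum :=
    (PT.map (F := fun a => mn (bd a) (fin a)) this (by fun_prop)).sum
  have k : ∀ f : Gr → ℕ, PT f → PT fun a : Gr × ℤ => decide (((f a.1 : ℕ) : ℤ) ≤ a.2 ∧ f a.1 ≤ bd a.1) :=
    fun f hf => by fun_prop
  exact k _ this

theorem mem_prs {a : Gr} {e : ℕ × ℕ} : e ∈ prs a ↔ e.1 < e.2 ∧ a.adjB e.1 e.2 = true := by
  obtain ⟨u, v⟩ := e
  simp only [prs, List.mem_filter, decide_eq_true_eq, and_iff_right_iff_imp, Gr.adjB]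
  exact fun h => List.pair_mem_product.2 ⟨List.mem_range.2 h.2.1, List.mem_range.2 h.2.2.1⟩

theorem inv (a : Gr) (h : a.G.IsAcyclic) (Q : ℕ) (hQ : Q ≤ bd a) (k : ℕ) :
    ((step (cube a.n (bd a)))^[k] (init a)).1.toFinset.card ≤ (prs a).length - k ∧
    (Feas a.n Q (init a).1.toFinset (init a).2 ↔ Feas a.n Q ((step (cube a.n (bd a)))^[k] (init a)).1.toFinset
      ((step (cube a.n (bd a)))^[k] (init a)).2) := by
  induction k with
  | zero => exact ⟨List.toFinset_card_le _, Iff.rfl⟩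
  | succ k ih =>
    obtain ⟨h1, h2⟩ := step_sub a k
    rw [Function.iterate_succ_apply']
    generalize _^[k] _ = s at *
    obtain ⟨E, T⟩ := s
    have m : ∀ e ∈ E, e.1 < e.2 ∧ e.2 < a.n ∧ a.adjB e.1 e.2 = true := fun e he => by
      have := mem_prs.1 (h1.subset he)
      exact ⟨this.1, (of_decide_eq_true this.2).2.1, this.2⟩
    simp only [step] at *
    split
    · rename_i c
      obtain rfl : E = [] := List.eq_nil_iff_forall_not_mem.2 fun e he => by
        obtain ⟨u, v, b, d⟩ := leaf (SimpleGraph.fromRel fun x y : Fin a.n => (x.1, y.1) ∈ E) (h.anti fun x y k => by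
          rcases k with ⟨-, k | k⟩
          · exact (a.adjB_iff _ _).1 (m _ k).2.2
          · exact ((a.adjB_iff _ _).1 (m _ k).2.2).symm) (a := ⟨e.1, (m e he).1.trans (m e he).2.1⟩)
          (b := ⟨e.2, (m e he).2.1⟩) ⟨by simpa using (m e he).1.ne, .inl he⟩
        refine List.eq_nil_iff_forall_not_mem.1 c (u, v) (List.mem_filter.2 ⟨?_, decide_eq_true ?_⟩)
        · simpa using b.2
        · rintro ⟨x, y⟩ k (rfl | rfl)
          · exact .inl (by rw [← d ⟨y, (m _ k).2.1⟩ ⟨Fin.ne_of_val_ne (m _ k).1.ne, .inl k⟩])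
          · exact .inr (by rw [← d ⟨x, (m _ k).1.trans u.2⟩ ⟨Fin.ne_of_val_ne (m _ k).1.ne', .inr k⟩])
      exact ⟨by simp, ih.2⟩
    · rename_i c
      have c1 : (cand E).headD (0, 0) ∈ cand E := by
        cases e : cand E
        · exact absurd e c
        · simp
      generalize (cand E).headD (0, 0) = p at c1
      obtain ⟨u, v⟩ := p
      simp only [cand, List.mem_filter, List.mem_append, List.mem_map, decide_eq_true_eq] at c1
      obtain ⟨e0, h0, he⟩ : ∃ e0 ∈ E, e0 = (u, v) ∨ e0 = (v, u) :=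
        c1.1.elim (fun k => ⟨_, k, .inl rfl⟩) fun ⟨e, k, q⟩ => ⟨e, k, .inr (by simp only [Prod.ext_iff] at *; omega)⟩
      have c2 : ∀ e ∈ E.toFinset, e.1 = u ∨ e.2 = u → e = e0 := fun e k q => by
        have := c1.2 e (List.mem_toFinset.1 k) q
        have := m e (List.mem_toFinset.1 k)
        have := m e0 h0
        simp only [Prod.ext_iff] at *; omega
      have c3 : (E.filter fun e => e.1 ≠ u ∧ e.2 ≠ u).toFinset = E.toFinset.erase e0 := ext fun e => by
        simp only [List.mem_toFinset, List.mem_filter, decide_eq_true_eq, mem_erase]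
        refine ⟨fun k => ⟨?_, k.1⟩, fun k => ⟨k.2, by_contra fun q => k.1 (c2 e (by simpa using k.2) (by omega))⟩⟩
        rintro rfl
        simp only [Prod.ext_iff] at he; omega
      have := m e0 h0
      simp only [c3, card_erase_of_mem (List.mem_toFinset.2 h0)]
      refine ⟨by omega, ih.2.trans (feas_step hQ h2.subset (List.mem_toFinset.2 h0) ?_ ?_ ?_ he c2)⟩ <;>
        rcases he with rfl | rfl <;> simp only at this <;> omega

theorem feas_init (a : Gr) (Q : ℕ) (hQ : Q ≤ bd a) : MinSumLe a.G Q ↔ Feas a.n Q (init a).1.toFinset (init a).2 := by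
  classical
  have nd : (prs a).Nodup := (List.nodup_range.product List.nodup_range).filter _
  have key : ∀ (l : Sym2 (Fin a.n) → ℕ) (F : ℕ × ℕ → ℕ), (∀ u v : Fin a.n, u < v → l s(u, v) = F (u, v)) →
      ∑ e ∈ a.G.edgeFinset, l e = ∑ e ∈ (prs a).toFinset, F e ∧
      ∀ w, colour a.G l w = ∑ e ∈ (prs a).toFinset with e.1 = w.1 ∨ e.2 = w.1, F e := fun l F h =>
    ⟨by rw [sum_edges a l F h, List.sum_toFinset _ nd], fun w => by
      rw [colour, sum_filter, sum_filter, List.sum_toFinset _ nd]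
      exact sum_edges a _ _ fun u v k => by simp [h u v k, Fin.ext_iff, eq_comm]⟩
  have ad : ∀ e ∈ prs a, ∃ u v : Fin a.n, e = (u.1, v.1) ∧ u < v ∧ a.G.Adj u v := fun e he => by
    have := mem_prs.1 he
    have k := of_decide_eq_true this.2
    exact ⟨⟨_, k.1⟩, ⟨_, k.2.1⟩, rfl, this.1, (a.adjB_iff _ _).1 this.2⟩
  simp only [Feas, init, List.mem_toFinset, List.mem_filter, mem_cube, decide_eq_true_eq]
  constructor
  · rintro ⟨l, h1, h2, h3⟩
    obtain ⟨k1, k2⟩ := key l (fun e => if h : e.1 < a.n ∧ e.2 < a.n then l s(⟨_, h.1⟩, ⟨_, h.2⟩) else 0) (by simp)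
    refine ⟨_, fun w => if h : w < a.n then colour a.G l ⟨w, h⟩ else 0, fun _ => 0, fun _ => 0, fun e he => ?_,
      fun w hw => ?_, by rw [← k1, sum_const_zero]; exact_mod_cast h3⟩
    · obtain ⟨u, v, rfl, -, k⟩ := ad e he
      simpa using ⟨h1 _ k, h2 u v k⟩
    · have : colour a.G l ⟨w, hw⟩ ≤ ∑ e ∈ a.G.edgeFinset, l e := by
        unfold colour; exact sum_le_sum_of_subset fun _ k => by simp at k; simpa using k.1
      simp only [hw, dif_pos, ← k2 ⟨w, hw⟩, zero_add, and_true, true_and, zero_le]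
      omega
  · rintro ⟨l, c, x, s, h1, h2, h3⟩
    obtain ⟨k1, k2⟩ := key (Sym2.lift ⟨fun u v => l (min u v, max u v), fun u v => by simp [min_comm, max_comm]⟩) l
      fun u v k => by simp [min_eq_left (show u.1 ≤ v.1 from k.le), max_eq_right (show u.1 ≤ v.1 from k.le)]
    have k3 : ∀ w : Fin a.n, _ = c w := fun w => (k2 w).trans (by have := h2 w w.2; omega)
    have k4 : ∀ u v, a.G.Adj u v → 1 ≤ l (min u v, max u v) ∧ c u ≠ c v := fun u v e => by
      rcases lt_or_gt_of_ne (Fin.val_ne_of_ne e.ne) with k | k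
      · simpa [k.le] using h1 (u, v) (mem_prs.2 ⟨k, (a.adjB_iff _ _).2 e⟩)
      · simpa [k.le, eq_comm] using h1 (v, u) (mem_prs.2 ⟨k, (a.adjB_iff _ _).2 e.symm⟩)
    refine ⟨_, fun e => Sym2.ind (fun u v e => (k4 u v e).1) e, fun u v e => ?_, by rw [k1]; omega⟩
    rw [k3, k3]; exact (k4 u v e).2

theorem feas_fin {n Q B : ℕ} (hQ : Q ≤ B) (T : List Q4) :
    Feas n Q ∅ T ↔ ((List.range n).map (mn B T)).sum ≤ Q := by
  have m1 : ∀ v, mn B T v ≤ B → ∃ c, (v, c, c, mn B T v) ∈ T := fun v h => by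
    have : mn B T v ∈ (List.range (B + 1)).filter fun s => ∃ t ∈ T, t.1 = v ∧ t.2.1 = t.2.2.1 ∧ t.2.2.2 = s := by
      unfold mn at *
      generalize List.filter _ _ = L at *
      cases L
      · simp at h
      · simp
    obtain ⟨⟨x, c, y, z⟩, k, e1, e2, e3⟩ := of_decide_eq_true (List.mem_filter.1 this).2
    simp only at e1 e2 e3
    exact ⟨c, by rwa [e1, ← e2, e3] at k⟩
  have m2 : ∀ v c s, s ≤ B → (v, c, c, s) ∈ T → mn B T v ≤ s := fun v c s h k => by
    have h1 : s ∈ (List.range (B + 1)).filter fun s => ∃ t ∈ T, t.1 = v ∧ t.2.1 = t.2.2.1 ∧ t.2.2.2 = s :=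
      List.mem_filter.2 ⟨List.mem_range.2 (by omega), decide_eq_true ⟨_, k, rfl, rfl, rfl⟩⟩
    have h2 := (List.pairwise_lt_range (n := B + 1)).filter fun s => ∃ t ∈ T, t.1 = v ∧ t.2.1 = t.2.2.1 ∧ t.2.2.2 = s
    unfold mn
    generalize List.filter _ _ = L at *
    cases L
    · simp at h1
    · rcases List.mem_cons.1 h1 with rfl | h1
      · rfl
      · exact (List.rel_of_pairwise_cons h2 h1).le
  change _ ↔ ∑ v ∈ range n, mn B T v ≤ Q
  simp only [Feas, notMem_empty, filter_empty, sum_empty, add_zero, zero_add]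
  constructor
  · rintro ⟨l, c, a, s, -, h2, h3⟩
    exact (sum_le_sum fun v hv => m2 v (c v) _ ((single_le_sum (fun _ _ => Nat.zero_le _) hv).trans (h3.trans hQ))
      ((h2 v (mem_range.1 hv)).2 ▸ (h2 v (mem_range.1 hv)).1)).trans h3
  · intro h
    choose! c hc using m1
    exact ⟨0, c, c, _, by simp, fun v hv => ⟨hc v ((single_le_sum (f := mn B T) (fun _ _ => Nat.zero_le _)
      (mem_range.2 hv)).trans (h.trans hQ)), rfl⟩, h⟩

theorem forest : InP fun a : {a : Gr × ℤ // a.1.G.IsAcyclic} => MinSumLe a.1.1.G a.1.2 := by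
  refine ⟨fun a => decide (alg a.1), pt_alg.comp (PT.id.cast fun _ => rfl), fun ⟨⟨a, q⟩, h⟩ => ?_⟩
  have e : MinSumLe a.G q ↔ MinSumLe a.G (min q (bd a)) :=
    ⟨fun k => by simpa [bd] using small _ _ k, fun ⟨l, h1, h2, h3⟩ => ⟨l, h1, h2, h3.trans (min_le_left _ _)⟩⟩
  simp only [e, decide_eq_true_eq, alg, ← Nat.cast_le (α := ℤ), ← le_min_iff]
  by_cases k : 0 ≤ min q (bd a)
  · obtain ⟨Q, hQ⟩ := Int.eq_ofNat_of_zero_le k
    have b : Q ≤ bd a := by omega
    have := inv a h Q b (prs a).length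
    rw [hQ, feas_init a Q b, this.2, card_eq_zero.1 (Nat.le_zero.1 (this.1.trans_eq (Nat.sub_self _))), feas_fin b,
      Nat.cast_le]
    rfl
  · exact iff_of_false (fun ⟨l, _, _, h⟩ => by omega) (by omega)

end Pool.Agent.H.MP_ec274c_lc
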