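import Pool.Agent.Lib.lead.CXGraph

namespace Pool.Agent.H.MP_ec274c_lc

variable {V : Type}

/-- no connected component is isomorphic to `K₂` -/
def Nice (G : SimpleGraph V) : Prop :=
  ∀ c : G.ConnectedComponent, IsEmpty (G.induce c.supp ≃g (⊤ : SimpleGraph (Fin 2)))

open Classical in
/-- the colour of `v`: the sum of the labels of the edges at `v` -/
noncomputable def colour [Fintype V] (G : SimpleGraph V) (l : Sym2 V → ℕ) (v : V) : ℕ :=
  ∑ e ∈ G.edgeFinset with v ∈ e, l e

open Classical in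
/-- `G` has a proper labelling with label sum at most `q` -/
def MinSumLe [Fintype V] (G : SimpleGraph V) (q : ℤ) : Prop :=
  ∃ l : Sym2 V → ℕ, (∀ e ∈ G.edgeSet, 1 ≤ l e) ∧ (∀ u v, G.Adj u v → colour G l u ≠ colour G l v) ∧
    ((∑ e ∈ G.edgeFinset, l e : ℕ) : ℤ) ≤ q

end Pool.Agent.H.MP_ec274c_lc
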